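import Pool.Agent.H30.GMC.StT

/-!
XDEG: the degree homomorphism.
-/

open AlgebraicGeometry CategoryTheory FCB MvPolynomial

namespace GMC

namespace XDEG

variable {X : Scheme.{0}} [IsIntegral X] [IsLocallyNoetherian X]

theorem ord_one (x : X) : Scheme.ord (1 : X.functionField) x = 0 := by
  have h := Scheme.ord_mul (X := X) (x := x) (f := 1) (g := 1) one_ne_zero one_ne_zero
  rw [mul_one] at h
  omega

theorem ord_inv (x : X) (f : X.functionField) (hf : f ≠ 0) :
    Scheme.ord f⁻¹ x = - Scheme.ord f x := by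
  have h := Scheme.ord_mul (X := X) (x := x) (f := f) (g := f⁻¹) hf (inv_ne_zero hf)
  rw [mul_inv_cancel₀ hf, ord_one] at h
  omega

theorem refl (D : WeilDiv X) : LinEquiv D D :=
  ⟨1, one_ne_zero, fun p => by rw [ord_one, add_zero]⟩

theorem symm {D E : WeilDiv X} (h : LinEquiv D E) : LinEquiv E D := by
  obtain ⟨f, hf, h⟩ := h
  exact ⟨f⁻¹, inv_ne_zero hf, fun p => by rw [ord_inv _ _ hf, h]; ring⟩

theorem trans {D E F : WeilDiv X} (h : LinEquiv D E) (h' : LinEquiv E F) : LinEquiv D F := by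
  obtain ⟨f, hf, h⟩ := h
  obtain ⟨g, hg, h'⟩ := h'
  exact ⟨f * g, mul_ne_zero hf hg, fun p => by rw [Scheme.ord_mul hf hg, h', h]; ring⟩

theorem add {D E D' E' : WeilDiv X} (h : LinEquiv D E) (h' : LinEquiv D' E') :
    LinEquiv (D + D') (E + E') := by
  obtain ⟨f, hf, h⟩ := h
  obtain ⟨g, hg, h'⟩ := h'
  refine ⟨f * g, mul_ne_zero hf hg, fun p => ?_⟩
  rw [Scheme.ord_mul hf hg, Finsupp.add_apply, Finsupp.add_apply, h, h']
  ring

/-- the key estimate: if `D` is the only possible pole, the order at `D` is not positive -/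
theorem ord_le (hP : S_XPOS) (hR : S_XREG) (M : XData) (ξ : Fin 3 → M.X.functionField)
    (hξ : M.IsXi ξ) (D : PrimeDiv M.X) (hD : M.IsD D) (f : M.X.functionField) (hf : f ≠ 0)
    (h : ∀ p : PrimeDiv M.X, p ≠ D → 0 ≤ Scheme.ord f p.1) : Scheme.ord f D.1 ≤ 0 := by
  let _ : Algebra ℂ M.X.functionField := (ffHom M.str).toAlgebra
  obtain ⟨F, hF⟩ := hR M ξ hξ D hD f hf h
  have hF0 : F ≠ 0 := by
    rintro rfl
    rw [map_zero] at hF
    exact hf hF
  rw [hF]
  exact hP M ξ hξ D hD F hF0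

theorem uniq (hI : S_XIEX) (hP : S_XPOS) (hR : S_XREG) (M : XData) (D : PrimeDiv M.X)
    (hD : M.IsD D) (k k' : ℤ) (h : LinEquiv (k • Finsupp.single D 1 : WeilDiv M.X)
      (k' • Finsupp.single D 1)) : k = k' := by
  obtain ⟨ξ, hξ⟩ := (hI M).1
  obtain ⟨f, hf, h⟩ := h
  have h1 : ∀ p : PrimeDiv M.X, p ≠ D → Scheme.ord f p.1 = 0 := by
    intro p hp
    have h2 := h p
    rw [Finsupp.smul_apply, Finsupp.smul_apply, Finsupp.single_eq_of_ne hp] at h2
    simpa using h2.symm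
  have h2 : k' = k + Scheme.ord f D.1 := by
    have h2 := h D
    rw [Finsupp.smul_apply, Finsupp.smul_apply, Finsupp.single_eq_same] at h2
    simpa using h2
  have h3 := ord_le hP hR M ξ hξ D hD f hf fun p hp => (h1 p hp).ge
  have h4 := ord_le hP hR M ξ hξ D hD f⁻¹ (inv_ne_zero hf) fun p hp => by
    rw [ord_inv _ _ hf, h1 p hp, neg_zero]
  rw [ord_inv _ _ hf] at h4
  omega

end XDEG

open XDEG in
theorem xdeg_thm (hI : S_XIEX) (hP : S_XPOS) (hR : S_XREG) (hC : S_XCLG) : S_XDEG := by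
  intro M D hD
  obtain ⟨ξ, hξ⟩ := (hI M).1
  choose dg hdg using hC M D hD
  have huq : ∀ E k, LinEquiv E (k • Finsupp.single D 1) → dg E = k := fun E k h =>
    uniq hI hP hR M D hD _ _ (trans (symm (hdg E)) h)
  have hadd : ∀ E E', dg (E + E') = dg E + dg E' := by
    intro E E'
    apply huq
    rw [add_smul]
    exact add (hdg E) (hdg E')
  refine ⟨⟨⟨dg, huq 0 0 (by rw [zero_smul]; exact refl _)⟩, hadd⟩, ?_, ?_, ?_⟩
  · change dg _ = 1
    apply huq
    rw [one_smul]
    exact refl _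
  · intro E E'
    change _ ↔ dg E = dg E'
    constructor
    · intro h
      exact huq _ _ (trans h (hdg E'))
    · intro h
      refine trans (hdg E) ?_
      rw [h]
      exact symm (hdg E')
  · intro E hE
    change 0 ≤ dg E
    obtain ⟨f, hf, h⟩ := hdg E
    have h1 : ∀ p : PrimeDiv M.X, p ≠ D → 0 ≤ Scheme.ord f⁻¹ p.1 := by
      intro p hp
      have h2 := h p
      rw [Finsupp.smul_apply, Finsupp.single_eq_of_ne hp, smul_zero] at h2
      have h3 : 0 ≤ E p := hE p
      rw [ord_inv _ _ hf]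
      omega
    have h2 := ord_le hP hR M ξ hξ D hD f⁻¹ (inv_ne_zero hf) h1
    rw [ord_inv _ _ hf] at h2
    have h3 := h D
    rw [Finsupp.smul_apply, Finsupp.single_eq_same, smul_eq_mul, mul_one] at h3
    have h4 : 0 ≤ E D := hE D
    omega

end GMC
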