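import Pool.Agent.H30.GMC.StT
import Pool.Agent.H66.GMC.XDEG

/-!
XCAN: the canonical divisor.
-/

open AlgebraicGeometry CategoryTheory FCB MvPolynomial

namespace GMC

namespace XCAN

variable {X : Scheme.{0}} [IsIntegral X] [IsLocallyNoetherian X]

theorem ord_neg_one (x : X) : Scheme.ord (-1 : X.functionField) x = 0 := by
  have h0 : (-1 : X.functionField) ≠ 0 := neg_ne_zero.2 one_ne_zero
  have h := Scheme.ord_mul (X := X) (x := x) h0 h0
  rw [neg_mul_neg, one_mul, XDEG.ord_one] at h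
  omega

theorem ord_pow (x : X) (f : X.functionField) (hf : f ≠ 0) (n : ℕ) :
    Scheme.ord (f ^ n) x = n * Scheme.ord f x := by
  induction n with
  | zero => simp [XDEG.ord_one]
  | succ n ih =>
    rw [pow_succ, Scheme.ord_mul (pow_ne_zero n hf) hf, ih]
    push_cast
    ring

theorem isJacobian_self {K : Type} [Field K] (φ : ℂ →+* K) {n : ℕ} (a : Fin n → K)
    (h : IsDiffBasis φ a) : IsJacobian φ a a 1 := by
  obtain ⟨c, hc⟩ := h
  exact ⟨c, c, hc, hc, c.det_self.symm⟩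

end XCAN

theorem xcan_thm (hI : S_XIEX) (hC : S_XCOO) (hT : S_XDET) (hO : S_XODX) : S_XCAN := by
  intro M ξ hξ D hD p
  by_cases hp : p = D
  · subst hp
    obtain ⟨t, ht, htk⟩ := (hC M ξ hξ 1).2 p.1 hD.2.1
    have h0 := ((hI M).2 ξ hξ).1 0
    have hb := (hC M ξ hξ 0).1
    have hj := hT _ (ffHom M.str) ξ h0 hb (hC M ξ hξ 1).1
    refine ⟨t, -ξ 0 ^ 5, ht, ?_, ?_⟩
    · have h1 : (fun i => algebraMap _ M.X.functionField (t i)) = xi ξ 1 := funext htk
      rw [h1]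
      exact hj
    · have h1 : -ξ 0 ^ 5 = (-1) * ξ 0 ^ 5 := by ring
      rw [h1, Scheme.ord_mul (neg_ne_zero.2 one_ne_zero) (pow_ne_zero 5 h0), XCAN.ord_neg_one,
        XCAN.ord_pow _ _ h0, (hO M ξ hξ p hD).1, Finsupp.smul_apply, Finsupp.single_eq_same]
      norm_num
  · have h0 : Qc (ch 0) ∉ M.P p.1 := fun h => hp (hD.2.2.2.2 p h)
    obtain ⟨t, ht, htk⟩ := (hC M ξ hξ 0).2 p.1 h0
    refine ⟨t, 1, ht, ?_, ?_⟩
    · have h1 : (fun i => algebraMap _ M.X.functionField (t i)) = xi ξ 0 := funext htk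
      rw [h1]
      exact XCAN.isJacobian_self _ _ (hC M ξ hξ 0).1
    · rw [Finsupp.smul_apply, Finsupp.single_eq_of_ne hp, XDEG.ord_one, smul_zero]

end GMC
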