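import Pool.Agent.H30.GMC.StT

/-!
XCHA: regular functions at a point of the chart `i`.
-/

open AlgebraicGeometry CategoryTheory FCB MvPolynomial

namespace GMC

namespace XCHA

theorem qc_homog (q : Fin 4) : Qc q ∈ grd 9 1 := by
  fin_cases q <;> exact isHomogeneous_X _ _

theorem qc_pow_homog (q : Fin 4) (d : ℕ) : Qc q ^ d ∈ grd 9 d := by
  have h := (qc_homog q).pow d
  rwa [one_mul] at h

end XCHA

theorem xcha_thm (hP : S_PSB) (hA : S_RATA) (hB : S_RATB) (hL : S_RLOC) (hG : S_RGEN)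
    (hD : S_XDEH) : S_XCHA := by
  intro M ξ hξ
  let : Algebra ℂ M.X.functionField := (ffHom M.str).toAlgebra
  intro i x hx
  have hD1 := hD M ξ hξ i
  have hpr : (PI (M.emb x)).IsPrime := (hP 9).1 _
  have hq : ∀ d, Qc (ch i) ^ d ∉ PI (M.emb x) := fun d h => hx (hpr.mem_of_pow_mem d h)
  refine ⟨?_, ?_⟩
  · intro F
    obtain ⟨d, A, hAd, rfl⟩ := hD1.2 F
    exact (hL M.X 9 M.emb x A (Qc (ch i) ^ d) _ (hD1.1 d A hAd) (hq d)).1
  · intro f hf
    obtain ⟨d, A, B, hAd, hBd, hBx, hr⟩ := hG M.V x f hf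
    refine ⟨dh i A, dh i B, ?_, ?_⟩
    · exact (hL M.X 9 M.emb x B (Qc (ch i) ^ d) _ (hD1.1 d B hBd) (hq d)).2.2 hBx
    · have h1 := ((hB M.X 9 M.emb).1 _ _ _ _ _ _ hr (hD1.1 d B hBd)).1
      refine ((hA M.X 9 M.emb).2.1 _ _ _ _ _ _ h1 (hD1.1 d A hAd)).2 ?_
      have h2 : A * B * Qc (ch i) ^ d - A * (B * Qc (ch i) ^ d) = 0 := by ring
      rw [h2]
      exact Ideal.zero_mem _

end GMC
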