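import Pool.Agent.H30.GMC.Base

/-!
A local ring of an integral scheme as a localisation of a ring of rational functions.
-/

open AlgebraicGeometry CategoryTheory FCB

set_option linter.unusedSectionVars false

namespace GMC

namespace Chart

variable {T : Scheme.{0}} [IsIntegral T] (x : T) {B : Type} [CommRing B]
  (f : B →+* T.functionField)

theorem alg_inj : Function.Injective (algebraMap (T.presheaf.stalk x) T.functionField) :=
  IsFractionRing.injective _ _

/-- a ring of functions regular at `x` maps to the local ring at `x` -/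
theorem ex_lift (h : ∀ b, RegAt x (f b)) :
    ∃ φ : B →+* T.presheaf.stalk x, ∀ b, algebraMap _ T.functionField (φ b) = f b := by
  choose φ hφ using h
  refine ⟨⟨⟨⟨φ, ?_⟩, ?_⟩, ?_, ?_⟩, hφ⟩
  · apply alg_inj x
    rw [hφ, map_one, map_one]
  · intro a b
    apply alg_inj x
    rw [hφ, map_mul, map_mul, hφ, hφ]
  · apply alg_inj x
    change algebraMap _ _ (φ 0) = algebraMap _ _ 0
    rw [hφ, map_zero, map_zero]
  · intro a b
    apply alg_inj x
    change algebraMap _ _ (φ (a + b)) = algebraMap _ _ (φ a + φ b)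
    rw [hφ, map_add, map_add, hφ, hφ]

variable {x f}

theorem unitAt_iff {φ : B →+* T.presheaf.stalk x}
    (hφ : ∀ b, algebraMap _ T.functionField (φ b) = f b) (b : B) :
    UnitAt x (f b) ↔ IsUnit (φ b) := by
  constructor
  · rintro ⟨s, hs, h⟩
    have h1 : s = φ b := alg_inj x (h.trans (hφ b).symm)
    rwa [← h1]
  · intro h
    exact ⟨φ b, h, hφ b⟩

/-- the prime ideal of `x` -/
noncomputable def pr (φ : B →+* T.presheaf.stalk x) : Ideal B :=
  (IsLocalRing.maximalIdeal (T.presheaf.stalk x)).comap φ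

instance (φ : B →+* T.presheaf.stalk x) : (pr φ).IsPrime := Ideal.comap_isPrime _ _

theorem mem_pr (φ : B →+* T.presheaf.stalk x) (b : B) : b ∈ pr φ ↔ ¬ IsUnit (φ b) := Iff.rfl

theorem isLoc {φ : B →+* T.presheaf.stalk x}
    (hφ : ∀ b, algebraMap _ T.functionField (φ b) = f b) (hinj : Function.Injective f)
    (hs : ∀ g, RegAt x g → ∃ F G, UnitAt x (f G) ∧ g * f G = f F) :
    let _ : Algebra B (T.presheaf.stalk x) := φ.toAlgebra
    IsLocalization.AtPrime (T.presheaf.stalk x) (pr φ) := by
  let _ : Algebra B (T.presheaf.stalk x) := φ.toAlgebra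
  refine ⟨?_, ?_, ?_⟩
  · rintro ⟨b, hb⟩
    by_contra h
    exact hb h
  · intro s
    obtain ⟨F, G, hG, h⟩ := hs (algebraMap _ T.functionField s) ⟨s, rfl⟩
    refine ⟨⟨F, ⟨G, fun h1 => h1 ((unitAt_iff hφ G).1 hG)⟩⟩, ?_⟩
    apply alg_inj x
    rw [map_mul]
    change _ * algebraMap _ T.functionField (φ G) = algebraMap _ T.functionField (φ F)
    rw [hφ, hφ, h]
  · intro a b h
    refine ⟨1, ?_⟩
    have h1 : φ a = φ b := h
    rw [Submonoid.coe_one, one_mul, one_mul]
    exact hinj (by rw [← hφ, ← hφ, h1])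

theorem height {φ : B →+* T.presheaf.stalk x}
    (hφ : ∀ b, algebraMap _ T.functionField (φ b) = f b) (hinj : Function.Injective f)
    (hs : ∀ g, RegAt x g → ∃ F G, UnitAt x (f G) ∧ g * f G = f F) :
    (pr φ).height = Order.coheight x := by
  let _ : Algebra B (T.presheaf.stalk x) := φ.toAlgebra
  have := isLoc hφ hinj hs
  have h1 := IsLocalization.AtPrime.ringKrullDim_eq_height (pr φ) (T.presheaf.stalk x)
  rw [ringKrullDim_stalk_eq_coheight] at h1
  exact_mod_cast h1.symm

end Chart

end GMC
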