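import Pool.Agent.H30.GMC.StT
import Pool.Agent.H66.GMC.Chart

/-!
XCOO: the coordinates of the chart `i` are local coordinates.
-/

open AlgebraicGeometry CategoryTheory FCB MvPolynomial

set_option linter.unusedSectionVars false

namespace GMC

namespace XCOO

theorem rho_Q (a : Pool.Agent.H22.GMC.Coord 2) : rho (Q a) = mon a := by
  rw [rho, Q, aeval_X, Equiv.apply_symm_apply]

theorem qc_notMem (i : Fin 3) : Qc (ch i) ∉ IX := by
  have h : rho (Qc (ch i)) = X (ch i) * X (ch i) := by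
    fin_cases i <;> exact rho_Q _
  intro h1
  rw [IX, RingHom.mem_ker] at h1
  rw [h] at h1
  exact mul_ne_zero (X_ne_zero _) (X_ne_zero _) h1

theorem alg_stk {T : Scheme.{0}} [IsIntegral T] (s : T ⟶ Spec (.of ℂ)) (x : T) (z : ℂ) :
    algebraMap (T.presheaf.stalk x) T.functionField (stkHom s x z) = ffHom s z := by
  have : Nonempty (⊤ : T.Opens) := ⟨⟨x, trivial⟩⟩
  have h := Scheme.algebraMap_germ_eq_germToFunctionField T (U := ⊤) (x := x) trivial
    (secHom s ⊤ z)
  exact h

theorem regAt_gen {T : Scheme.{0}} [IsIntegral T] (f : T.functionField) :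
    RegAt (genericPoint T) f := by
  refine ⟨f, ?_⟩
  rw [RingHom.algebraMap_toAlgebra]
  change (T.presheaf.stalkSpecializes _) f = f
  rw [TopCat.Presheaf.stalkSpecializes_refl]
  rfl

theorem unitAt_ne {T : Scheme.{0}} [IsIntegral T] {x : T} {f : T.functionField}
    (h : UnitAt x f) : f ≠ 0 := by
  obtain ⟨s, hs, rfl⟩ := h
  exact (hs.map (algebraMap (T.presheaf.stalk x) T.functionField)).ne_zero

/-- differentials of a localised polynomial ring -/
theorem kpol (S : Submonoid (MvPolynomial (Fin 3) ℂ)) (B : Type) [CommRing B]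
    [Algebra (MvPolynomial (Fin 3) ℂ) B] [Algebra ℂ B]
    [IsScalarTower ℂ (MvPolynomial (Fin 3) ℂ) B] (_ : IsLocalization S B) :
    ∃ b : Module.Basis (Fin 3) B (Ω[B⁄ℂ]), ∀ j, b j =
      KaehlerDifferential.D ℂ B (algebraMap (MvPolynomial (Fin 3) ℂ) B (X j)) := by
  refine ⟨(KaehlerDifferential.mvPolynomialBasis ℂ (Fin 3)).ofIsLocalizedModule B S
    (KaehlerDifferential.map ℂ ℂ (MvPolynomial (Fin 3) ℂ) B), fun j => ?_⟩
  rw [Module.Basis.ofIsLocalizedModule_apply, KaehlerDifferential.mvPolynomialBasis_apply,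
    KaehlerDifferential.map_D]

/-- the case of the local ring -/
theorem stk {T : Scheme.{0}} [IsIntegral T] (s : T ⟶ Spec (.of ℂ)) (x : T)
    (a : Fin 3 → T.functionField) :
    let _ : Algebra ℂ T.functionField := (ffHom s).toAlgebra
    (∀ F : MvPolynomial (Fin 3) ℂ, aeval a F = 0 → F = 0) →
    (∀ F : MvPolynomial (Fin 3) ℂ, RegAt x (aeval a F)) →
    (∀ f : T.functionField, RegAt x f → ∃ F G : MvPolynomial (Fin 3) ℂ,
        UnitAt x (aeval a G) ∧ f * aeval a G = aeval a F) →
    ∃ t : Fin 3 → T.presheaf.stalk x, IsDiffBasis (stkHom s x) t ∧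
        ∀ k, algebraMap _ T.functionField (t k) = a k := by
  intro _ hI hR hS
  let f : MvPolynomial (Fin 3) ℂ →+* T.functionField := (aeval a).toRingHom
  obtain ⟨φ, hφ⟩ := Chart.ex_lift x f hR
  have hinj : Function.Injective f := by
    rw [injective_iff_map_eq_zero]
    exact hI
  let _ : Algebra (MvPolynomial (Fin 3) ℂ) (T.presheaf.stalk x) := φ.toAlgebra
  let _ : Algebra ℂ (T.presheaf.stalk x) := (stkHom s x).toAlgebra
  have hloc : IsLocalization (Chart.pr φ).primeCompl (T.presheaf.stalk x) :=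
    Chart.isLoc hφ hinj hS
  have hst : IsScalarTower ℂ (MvPolynomial (Fin 3) ℂ) (T.presheaf.stalk x) := by
    refine IsScalarTower.of_algebraMap_eq fun z => ?_
    apply Chart.alg_inj x
    change algebraMap _ _ (stkHom s x z) = algebraMap _ _ (φ (C z))
    rw [alg_stk, hφ]
    change _ = aeval a (C z)
    rw [aeval_C]
    rfl
  obtain ⟨b, hb⟩ := kpol (Chart.pr φ).primeCompl (T.presheaf.stalk x) hloc
  refine ⟨fun k => φ (X k), ⟨b, hb⟩, fun k => ?_⟩
  rw [hφ]
  exact aeval_X _ _

/-- the case of the function field -/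
theorem ff {T : Scheme.{0}} [IsIntegral T] (s : T ⟶ Spec (.of ℂ))
    (a : Fin 3 → T.functionField) :
    let _ : Algebra ℂ T.functionField := (ffHom s).toAlgebra
    (∀ F : MvPolynomial (Fin 3) ℂ, aeval a F = 0 → F = 0) →
    (∀ f : T.functionField, ∃ F G : MvPolynomial (Fin 3) ℂ,
        aeval a G ≠ 0 ∧ f * aeval a G = aeval a F) →
    IsDiffBasis (ffHom s) a := by
  intro _ hI hS
  let f : MvPolynomial (Fin 3) ℂ →+* T.functionField := (aeval a).toRingHom
  have hinj : Function.Injective f := by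
    rw [injective_iff_map_eq_zero]
    exact hI
  let _ : Algebra (MvPolynomial (Fin 3) ℂ) T.functionField := f.toAlgebra
  have hloc : IsLocalization (nonZeroDivisors (MvPolynomial (Fin 3) ℂ)) T.functionField := by
    refine ⟨?_, ?_, ?_⟩
    · rintro ⟨b, hb⟩
      rw [isUnit_iff_ne_zero]
      change f b ≠ 0
      intro h
      exact nonZeroDivisors.ne_zero hb (hinj (h.trans (map_zero f).symm))
    · intro g
      obtain ⟨F, G, hG, h⟩ := hS g
      refine ⟨⟨F, ⟨G, mem_nonZeroDivisors_of_ne_zero ?_⟩⟩, h⟩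
      rintro rfl
      exact hG (map_zero _)
    · intro b c h
      refine ⟨1, ?_⟩
      rw [Submonoid.coe_one, one_mul, one_mul]
      exact hinj h
  have hst : IsScalarTower ℂ (MvPolynomial (Fin 3) ℂ) T.functionField := by
    refine IsScalarTower.of_algebraMap_eq fun z => ?_
    change _ = aeval a (C z)
    rw [aeval_C]
  obtain ⟨b, hb⟩ := kpol _ T.functionField hloc
  refine ⟨b, fun k => ?_⟩
  rw [hb]
  change KaehlerDifferential.D ℂ _ (aeval a (X k)) = _
  rw [aeval_X]

end XCOO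

theorem xcoo_thm (hI : S_XIEX) (hC : S_XCHA) : S_XCOO := by
  intro M ξ hξ i
  have hI1 := ((hI M).2 ξ hξ).2.1 i
  refine ⟨?_, fun x hx => ?_⟩
  · refine XCOO.ff M.str (xi ξ i) hI1 fun f => ?_
    have hg : Qc (ch i) ∉ M.P (genericPoint M.X) := by
      have h := XCOO.qc_notMem i
      rw [← M.gen] at h
      exact h
    obtain ⟨F, G, hG, h⟩ := (hC M ξ hξ i _ hg).2 f (XCOO.regAt_gen f)
    exact ⟨F, G, XCOO.unitAt_ne hG, h⟩
  · exact XCOO.stk M.str x (xi ξ i) hI1 (hC M ξ hξ i x hx).1 (hC M ξ hξ i x hx).2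

end GMC
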