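import Pool.Agent.H30.GMC.StT
import Pool.Agent.H66.GMC.Chart

/-!
XPRI: the prime ideal of a point of the chart `i`.
-/

open AlgebraicGeometry CategoryTheory FCB MvPolynomial

namespace GMC

theorem xpri_thm (hI : S_XIEX) (hC : S_XCHA) : S_XPRI := by
  intro M ξ hξ i x hx
  let _ : Algebra ℂ M.X.functionField := (ffHom M.str).toAlgebra
  have hC1 := hC M ξ hξ i x hx
  have hI1 := ((hI M).2 ξ hξ).2.1 i
  let f : MvPolynomial (Fin 3) ℂ →+* M.X.functionField := (aeval (xi ξ i)).toRingHom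
  obtain ⟨φ, hφ⟩ := Chart.ex_lift x f hC1.1
  have hinj : Function.Injective f := by
    rw [injective_iff_map_eq_zero]
    exact hI1
  refine ⟨Chart.pr φ, inferInstance, ?_, Chart.height hφ hinj hC1.2⟩
  intro F
  rw [Chart.mem_pr, ← Chart.unitAt_iff hφ F]
  rfl

end GMC
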