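import Pool.Agent.H30.GMC.StT

/-!
OPNE: the curves on which a representation does not vanish identically.
-/

open AlgebraicGeometry CategoryTheory FCB MvPolynomial

namespace GMC

namespace OPNE

theorem eval_bf {n e : ℕ} (c : Fin (n + 1) × Fin (e + 1) → ℂ) (s t : ℂ)
    (F : MvPolynomial (Fin (n + 1)) ℂ) :
    eval ![s, t] (aeval (bf c) F) = eval (ev c s t) F := by
  have h : (eval ![s, t]).comp (aeval (bf c) : MvPolynomial (Fin (n + 1)) ℂ →ₐ[ℂ] _).toRingHom =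
      eval (ev c s t) := by
    apply MvPolynomial.ringHom_ext
    · intro z
      simp
    · intro i
      simp [bf, ev]
  exact congrArg (fun φ => φ F) h

/-- the value of the curve at `(s, t)` as a polynomial in the coefficients -/
noncomputable def gen {n e : ℕ} (s t : ℂ) (F : MvPolynomial (Fin (n + 1)) ℂ) :
    MvPolynomial (Fin (n + 1) × Fin (e + 1)) ℂ :=
  aeval (fun i => ∑ j : Fin (e + 1), X (i, j) * C (s ^ (j : ℕ)) * C (t ^ (e - j))) F

theorem eval_gen {n e : ℕ} (c : Fin (n + 1) × Fin (e + 1) → ℂ) (s t : ℂ)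
    (F : MvPolynomial (Fin (n + 1)) ℂ) : eval c (gen s t F) = eval (ev c s t) F := by
  have h : (eval c).comp (aeval (fun i => ∑ j : Fin (e + 1), X (i, j) * C (s ^ (j : ℕ)) *
      C (t ^ (e - j))) : MvPolynomial (Fin (n + 1)) ℂ →ₐ[ℂ] _).toRingHom =
      eval (ev c s t) := by
    apply MvPolynomial.ringHom_ext
    · intro z
      simp
    · intro i
      simp [ev]
  exact congrArg (fun φ => φ F) h

theorem isOpen_ne {V : PVar} {e : ℕ} (G : MvPolynomial (Fin (V.n + 1) × Fin (e + 1)) ℂ) :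
    IsOpen {ψ : RatMap V e | eval ψ.coeff G ≠ 0} := by
  refine ⟨(PrimeSpectrum.basicOpen G : Set _), (PrimeSpectrum.basicOpen G).isOpen, ?_⟩
  ext ψ
  rw [Set.mem_preimage, SetLike.mem_coe, PrimeSpectrum.mem_basicOpen, Set.mem_ofPred_eq]
  change G ∉ vanishingIdeal ℂ {ψ.coeff} ↔ _
  rw [mem_vanishingIdeal_singleton_iff]
  rfl

end OPNE

theorem opne_thm (hI : S_IPT) (hR : S_REPX) : S_OPNE := by
  intro M Y f e' ψ₀ hf
  obtain ⟨g, hg1, hg2⟩ := ψ₀.isMap
  have hne : (![1, 0] : Fin (1 + 1) → ℂ) ≠ 0 := by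
    intro h
    have := congrFun h 0
    simp at this
  obtain ⟨x, hx⟩ := (hI 1).1 ![1, 0] hne
  have hgx := hg2 1 0 x hx
  obtain ⟨R, a, ha⟩ := hR M Y f hf (g x)
  have h0 : eval (ev ψ₀.coeff 1 0) (R.F a) ≠ 0 := fun h => ha ((hgx _ _ (R.hom a)).2 h)
  refine ⟨R, {ψ | eval ψ.coeff (OPNE.gen 1 0 (R.F a)) ≠ 0}, OPNE.isOpen_ne _, ?_, ?_⟩
  · rw [Set.mem_ofPred_eq, OPNE.eval_gen]
    exact h0
  · intro ψ hψ
    refine ⟨a, fun h => hψ ?_⟩
    rw [OPNE.eval_gen, ← OPNE.eval_bf, h, map_zero]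

end GMC
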